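import Pool.Agent.SelbergND.Final
import Pool.Agent.Selberg.Forms

/-!
# Rough subsolutions for `Γ(N)`

A continuous nonnegative `Γ(N)`-invariant function that is a smooth subsolution where it is positive
is a subsolution in the sense of `SelbergND.ISub` (uniform limit of smooth invariant subsolutions).
-/

open Set MeasureTheory UpperHalfPlane CongruenceSubgroup Filter
open scoped Laplacian ContDiff Topology MatrixGroups

namespace Pool.Agent.FKN

open Pool.Agent.Selberg Pool.Agent.SelbergND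

/-- `g` is a nonnegative subsolution of `-y² Δ g ≤ lam g` on `Γ(N) \ ℍ`: it is continuous, `≥ 0`,
invariant under `Γ(N)`, smooth where it is positive, satisfies the inequality there, and is square
integrable for `dx dy / y²` on every translate `γ 𝒟` of the standard fundamental domain `𝒟` of
`SL(2, ℤ)`. -/
structure Subsolution (N : ℕ) (lam : ℝ) (g : ℂ → ℝ) : Prop where
  cont : ContinuousOn g {w | 0 < w.im}
  nonneg : ∀ w : ℂ, 0 < w.im → 0 ≤ g w
  inv : ∀ γ ∈ Gamma N, ∀ z : ℍ, g ((γ • z : ℍ) : ℂ) = g (z : ℂ)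
  smooth : ContDiffOn ℝ ∞ g {w | 0 < w.im ∧ 0 < g w}
  sub : ∀ w : ℂ, 0 < w.im → 0 < g w → -(w.im ^ 2 * Δ g w) ≤ lam * g w
  sq : ∀ γ : SL(2, ℤ), IntegrableOn (fun w : ℂ => ‖g w‖ ^ 2 / w.im ^ 2)
    ((fun z : ℍ => ((γ • z : ℍ) : ℂ)) '' ModularGroup.fd)

section loc

variable {O : Set ℂ} {u : ℂ → ℝ} {w : ℂ}

lemma smoothO (hO : IsOpen O) (hu : ContDiffOn ℝ ∞ u O) (v : ℂ) : ContDiffOn ℝ ∞ (D v u) O := by
  have h1 : ContDiffOn ℝ ∞ (fderiv ℝ u) O := hu.fderiv_of_isOpen hO (by simp)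
  exact h1.clm_apply contDiffOn_const

lemma diffO (hO : IsOpen O) (hu : ContDiffOn ℝ ∞ u O) (hw : w ∈ O) : DifferentiableAt ℝ u w :=
  (hu.contDiffAt (hO.mem_nhds hw)).differentiableAt (by simp)

lemma D_D_O (hO : IsOpen O) (hu : ContDiffOn ℝ ∞ u O) (hw : w ∈ O) (v : ℂ) :
    D v (D v u) w = iteratedFDeriv ℝ 2 u w ![v, v] := by
  have h2 : DifferentiableAt ℝ (fderiv ℝ u) w := by
    have h1 : ContDiffOn ℝ ∞ (fderiv ℝ u) O := hu.fderiv_of_isOpen hO (by simp)
    exact (h1.contDiffAt (hO.mem_nhds hw)).differentiableAt (by simp)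
  rw [iteratedFDeriv_two_apply]
  change fderiv ℝ (fun y => (fderiv ℝ u y) v) w v = _
  rw [fderiv_clm_apply h2 (differentiableAt_const v)]
  simp

lemma lapO (hO : IsOpen O) (hu : ContDiffOn ℝ ∞ u O) (hw : w ∈ O) :
    Δ u w = D 1 (D 1 u) w + D Complex.I (D Complex.I u) w := by
  rw [InnerProductSpace.laplacian_eq_iteratedFDeriv_complexPlane, D_D_O hO hu hw, D_D_O hO hu hw]

/-- the Laplacian of a composition, locally -/
lemma lap_compO {h : ℝ → ℝ} (hh : ContDiff ℝ ∞ h) (hO : IsOpen O) (hu : ContDiffOn ℝ ∞ u O)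
    (hw : w ∈ O) :
    Δ (fun w => h (u w)) w = deriv (deriv h) (u w) * ((D 1 u w) ^ 2 + (D Complex.I u w) ^ 2)
      + deriv h (u w) * Δ u w := by
  have hhu : ContDiffOn ℝ ∞ (fun w => h (u w)) O := hh.comp_contDiffOn hu
  have hd1 : ∀ t, HasDerivAt h (deriv h t) t := fun t =>
    (hh.differentiable (by simp)).differentiableAt.hasDerivAt
  have hh' : ContDiff ℝ ∞ (deriv h) := (contDiff_infty_iff_deriv.mp hh).2
  have hd2 : ∀ t, HasDerivAt (deriv h) (deriv (deriv h) t) t := fun t =>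
    (hh'.differentiable (by simp)).differentiableAt.hasDerivAt
  have key1 : ∀ v : ℂ, ∀ x ∈ O, D v (fun w => h (u w)) x = deriv h (u x) * D v u x := by
    intro v x hx
    have h3 : HasFDerivAt u (fderiv ℝ u x) x := (diffO hO hu hx).hasFDerivAt
    have h4 := (hd1 (u x)).comp_hasFDerivAt x h3
    have h5 : fderiv ℝ (fun w => h (u w)) x = deriv h (u x) • fderiv ℝ u x := h4.fderiv
    rw [D, h5]
    simp [D]
  have key : ∀ v : ℂ, D v (D v (fun w => h (u w))) w
      = deriv (deriv h) (u w) * (D v u w) ^ 2 + deriv h (u w) * D v (D v u) w := by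
    intro v
    have hev : D v (fun w => h (u w)) =ᶠ[𝓝 w] fun x => deriv h (u x) * D v u x := by
      filter_upwards [hO.mem_nhds hw] with x hx
      exact key1 v x hx
    have h3 : HasFDerivAt u (fderiv ℝ u w) w := (diffO hO hu hw).hasFDerivAt
    have h4 := (hd2 (u w)).comp_hasFDerivAt w h3
    have h5 : HasFDerivAt (D v u) (fderiv ℝ (D v u) w) w :=
      (diffO hO (smoothO hO hu v) hw).hasFDerivAt
    have h6 := h4.mul h5
    have h7 : fderiv ℝ (D v (fun w => h (u w))) w = _ := hev.fderiv_eq.trans h6.fderiv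
    rw [D, h7]
    simp only [D, _root_.add_apply, _root_.smul_apply, smul_eq_mul,
      Function.comp_apply]
    ring
  rw [lapO hO hhu hw, lapO hO hu hw, key, key]
  ring

end loc

/-- the smooth approximations of a rough subsolution -/
lemma rough_approx {lam : ℝ} (hlam : 0 ≤ lam) {g : ℂ → ℝ} (hc : ContinuousOn g HH)
    (h0 : ∀ w ∈ HH, 0 ≤ g w) (hsm : ContDiffOn ℝ ∞ g {w | w ∈ HH ∧ 0 < g w})
    (hpde : ∀ w ∈ HH, 0 < g w → -lam * g w ≤ w.im ^ 2 * Δ g w) {e : ℝ} (he : 0 < e) :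
    ContDiffOn ℝ ∞ (fun w => Hs e (g w) + 2 * e) HH ∧
    (∀ w ∈ HH, -lam * (Hs e (g w) + 2 * e) ≤ w.im ^ 2 * Δ (fun w => Hs e (g w) + 2 * e) w) ∧
    ∀ w ∈ HH, g w ≤ Hs e (g w) + 2 * e ∧ Hs e (g w) + 2 * e ≤ g w + 2 * e := by
  have hO : IsOpen {w | w ∈ HH ∧ 0 < g w} := hc.isOpen_inter_preimage isOpen_HH isOpen_Ioi
  have hh : ContDiff ℝ ∞ (fun t => Hs e t + 2 * e) := (contDiff_Hs e).add contDiff_const
  have hd : deriv (fun t => Hs e t + 2 * e) = deriv (Hs e) := by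
    funext t
    exact deriv_add_const (2 * e)
  have hzero : ∀ w ∈ HH, g w = 0 → (fun w => Hs e (g w) + 2 * e) =ᶠ[𝓝 w] fun _ => 2 * e := by
    intro w hw hg
    have hcw : ContinuousAt g w := hc.continuousAt (isOpen_HH.mem_nhds hw)
    have h1 : ∀ᶠ x in 𝓝 w, g x < e := by
      apply hcw.eventually_lt continuousAt_const
      rw [hg]; exact he
    filter_upwards [h1] with x hx
    rw [Hs_zero he hx.le, zero_add]
  refine ⟨?_, ?_, ?_⟩
  · intro w hw
    apply ContDiffAt.contDiffWithinAt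
    rcases (h0 w hw).eq_or_lt with h | h
    · exact contDiffAt_const.congr_of_eventuallyEq (hzero w hw h.symm)
    · exact (hh.comp_contDiffOn hsm).contDiffAt (hO.mem_nhds ⟨hw, h⟩)
  · intro w hw
    have hb := Hs_bounds he (h0 w hw)
    rcases (h0 w hw).eq_or_lt with h | h
    · rw [(InnerProductSpace.laplacian_congr_nhds (hzero w hw h.symm)).eq_of_nhds]
      have h1 : Δ (fun _ : ℂ => 2 * e) w = 0 := by simp
      rw [h1, mul_zero]
      nlinarith [hb.1]
    · have hl := lap_compO hh hO hsm (w := w) ⟨hw, h⟩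
      rw [hl, hd]
      have h1 := hpde w hw h
      have h2 := Hs_euler he (h0 w hw)
      have h3 := Hs_convex he (g w)
      have h4 := deriv_Hs_nonneg e (g w)
      have h5 : 0 ≤ w.im ^ 2 * (deriv (deriv (Hs e)) (g w) * ((D 1 g w) ^ 2 + (D Complex.I g w) ^ 2)) := by
        positivity
      have h6 : w.im ^ 2 * (deriv (deriv (Hs e)) (g w) * ((D 1 g w) ^ 2 + (D Complex.I g w) ^ 2)
          + deriv (Hs e) (g w) * Δ g w)
          = w.im ^ 2 * (deriv (deriv (Hs e)) (g w) * ((D 1 g w) ^ 2 + (D Complex.I g w) ^ 2))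
          + deriv (Hs e) (g w) * (w.im ^ 2 * Δ g w) := by ring
      rw [h6]
      have h7 : lam * (deriv (Hs e) (g w) * g w) ≤ lam * (Hs e (g w) + 2 * e) :=
        mul_le_mul_of_nonneg_left h2 hlam
      have h8 : deriv (Hs e) (g w) * (-lam * g w) ≤ deriv (Hs e) (g w) * (w.im ^ 2 * Δ g w) :=
        mul_le_mul_of_nonneg_left h1 h4
      nlinarith
  · intro w hw
    have hb := Hs_bounds he (h0 w hw)
    constructor <;> linarith


/-- a subsolution is an `ISub` -/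
lemma isub_of_rough {N : ℕ} {lam al : ℝ} (hal0 : 0 ≤ al) (hal1 : al ≤ 1 / 2)
    (hal : al * (1 - al) = lam) {g : ℂ → ℝ} (hg : Subsolution N lam g) : ISub al N g := by
  have hlam : 0 ≤ lam := by rw [← hal]; exact mul_nonneg hal0 (by linarith)
  have hinv : ∀ γ ∈ Gamma N, ∀ w ∈ HH, g (mob γ w) = g w := by
    intro γ hγ w hw
    have h1 := hg.inv γ hγ ⟨w, hw⟩
    rw [← mob_coe] at h1
    exact h1
  have hpde : ∀ w ∈ HH, 0 < g w → -lam * g w ≤ w.im ^ 2 * Δ g w := by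
    intro w hw hp
    have := hg.sub w hw hp
    linarith
  refine ⟨hal0, hal1, hg.cont, hg.nonneg, hinv, ?_, ?_⟩
  · intro κ hκ
    obtain ⟨h1, h2, h3⟩ := rough_approx hlam (g := g) hg.cont hg.nonneg hg.smooth hpde
      (e := κ / 2) (by positivity)
    refine ⟨_, h1, ?_, fun w hw => ⟨?_, ?_, ?_⟩⟩
    · intro γ hγ w hw
      simp only [hinv γ hγ w hw]
    · exact (hg.nonneg w hw).trans (h3 w hw).1
    · have := h3 w hw
      rw [abs_le]
      constructor <;> linarith [this.1, this.2]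
    · have := h2 w hw
      rw [hal]
      linarith
  · intro γ
    have hcont : ContinuousOn (fun w => (g w : ℂ)) HH := Complex.continuous_ofReal.comp_continuousOn hg.cont
    refine (frozen_mass_iff hcont γ).mp ?_
    have := hg.sq γ
    simpa only [Complex.norm_real] using this

/-- **the set where a subsolution is positive is large** -/
theorem subsolution_large : ∃ c : ℝ, 0 < c ∧ ∀ N : ℕ, 0 < N → ∀ a : ℝ, 0 ≤ a → a ≤ 1 / 2 → ∀ g : ℂ → ℝ,
    Subsolution N (1 / 4 - a ^ 2) g → (∃ z : ℍ, g (z : ℂ) ≠ 0) →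
    ∀ F : Set ℍ, MeasurableSet F → (∀ z : ℍ, ∃ γ ∈ Gamma N, γ • z ∈ F) →
    ENNReal.ofReal (c * (N:ℝ) ^ (1 + 2 * a)) ≤ volume (F ∩ {z : ℍ | 0 < g (z : ℂ)}) := by
  obtain ⟨c, hc, h⟩ := all_levels
  refine ⟨c, hc, fun N hN a ha0 ha1 g hg hne F hF hcov => ?_⟩
  have hal : (1 / 2 - a) * (1 - (1 / 2 - a)) = 1 / 4 - a ^ 2 := by ring
  have hI : ISub (1 / 2 - a) N g := isub_of_rough (by linarith) (by linarith) hal hg
  have hcont : Continuous (fun z : ℍ => g (z : ℂ)) :=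
    hg.cont.comp_continuous continuous_coe (fun z => z.im_pos)
  have hopen : IsOpen {z : ℍ | 0 < g (z : ℂ)} := isOpen_lt continuous_const hcont
  have hD : ∀ γ ∈ Gamma N, ∀ z : ℍ, γ • z ∈ {z : ℍ | 0 < g (z : ℂ)} ↔ z ∈ {z : ℍ | 0 < g (z : ℂ)} := by
    intro γ hγ z
    change 0 < g ((γ • z : ℍ) : ℂ) ↔ 0 < g (z : ℂ)
    rw [hg.inv γ hγ z]
  have h1 := h N hN (1 / 2 - a) g hI hne {z : ℍ | 0 < g (z : ℂ)} F hopen.measurableSet hF hD hcov
    (fun z hz => le_antisymm (not_lt.mp hz) (hg.nonneg _ z.im_pos))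
  have e : 2 * (1 - (1 / 2 - a)) = 1 + 2 * a := by ring
  rwa [e] at h1

end Pool.Agent.FKN
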